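import Mathlib
import Pool.Agent.Lib.MP_8049df_ag.Final

/-!
# MP_8049df_ag: Gröbner-smoothable complexes are Cohen-Macaulay and acyclic

The conclusion is stated with the reduced simplicial cohomology `kernel / image`.
-/

set_option autoImplicit false

namespace Pool.Agent.Results.MP_8049df_ag.SmoothableCM

universe u

/-- A simplicial complex on `n` vertices: a family of subsets closed under taking subsets. -/
structure Cx (n : ℕ) where
  /-- the faces -/
  faces : Set (Finset (Fin n))
  /-- closed under taking subsets -/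
  down : ∀ F ∈ faces, ∀ G : Finset (Fin n), G ⊆ F → G ∈ faces

variable {n : ℕ}

/-- The link of `F`: all `G` with `G ∩ F = ∅` and `G ∪ F ∈ Δ`. -/
def Cx.link (Δ : Cx n) (F : Finset (Fin n)) : Cx n where
  faces := {G | G ∩ F = ∅ ∧ G ∪ F ∈ Δ.faces}
  down := by
    rintro H ⟨h1, h2⟩ G hG
    refine ⟨?_, Δ.down _ h2 _ (Finset.union_subset_union_left hG)⟩
    rw [← Finset.subset_empty, ← h1]
    exact Finset.inter_subset_inter_right hG

/-- Simplicial cochains of dimension `q - 1`: functions on the faces with `q` elements. -/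
abbrev Cochain (K : Type) (Δ : Cx n) (q : ℕ) : Type :=
  {F : Finset (Fin n) // F ∈ Δ.faces ∧ F.card = q} → K

/-- The simplicial coboundary
`(d c)(F) = ∑_{v ∈ F} (-1) ^ #{u ∈ F : u < v} c(F \ {v})`. -/
def cobd (K : Type) [Field K] (Δ : Cx n) (q : ℕ) : Cochain K Δ q →ₗ[K] Cochain K Δ (q + 1) where
  toFun c F := ∑ v : {v // v ∈ F.1}, (-1 : K) ^ (F.1.filter (fun u => u < v.1)).card *
    c ⟨F.1.erase v.1, Δ.down _ F.2.1 _ (Finset.erase_subset _ _), by
      rw [Finset.card_erase_of_mem v.2, F.2.2, Nat.add_sub_cancel]⟩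
  map_add' c d := by
    funext F
    simp only [Pi.add_apply, mul_add, Finset.sum_add_distrib]
  map_smul' a c := by
    funext F
    simp only [Pi.smul_apply, smul_eq_mul, RingHom.id_apply, Finset.mul_sum]
    exact Finset.sum_congr rfl fun v _ => by ring

/-- The coboundaries among the cochains of dimension `q - 1`. -/
def coboundaries (K : Type) [Field K] (Δ : Cx n) : (q : ℕ) → Submodule K (Cochain K Δ q)
  | 0 => ⊥
  | q + 1 => LinearMap.range (cobd K Δ q)

/-- The reduced cohomology `H^(q-1)(Δ; K)`, cocycles modulo coboundaries. -/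
abbrev RedCohomology (K : Type) [Field K] (Δ : Cx n) (q : ℕ) : Type :=
  LinearMap.ker (cobd K Δ q) ⧸ (coboundaries K Δ q).submoduleOf (LinearMap.ker (cobd K Δ q))

/-- `Δ` is Cohen-Macaulay over `K`: `H^(q-1)(link F; K) = 0` for all faces `F` and all `q` with
`q - 1 < dim link F`, that is, `q < |G|` for some face `G` of the link. -/
def CohenMacaulay (K : Type) [Field K] (Δ : Cx n) : Prop :=
  ∀ F ∈ Δ.faces, ∀ q : ℕ, (∃ G ∈ (Δ.link F).faces, q < G.card) →
    Subsingleton (RedCohomology K (Δ.link F) q)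

/-- `Δ` is acyclic over `K`: all reduced cohomology vanishes. -/
def Acyclic (K : Type) [Field K] (Δ : Cx n) : Prop :=
  ∀ q : ℕ, Subsingleton (RedCohomology K Δ q)

/-- The initial ideal, generated by the leading monomials of the nonzero elements. -/
noncomputable def initialIdeal {K : Type} [Field K] (ord : MonomialOrder.{0, u} (Fin n))
    (I : Ideal (MvPolynomial (Fin n) K)) : Ideal (MvPolynomial (Fin n) K) :=
  Ideal.span {p | ∃ f ∈ I, f ≠ 0 ∧ p = MvPolynomial.monomial (ord.degree f) (1 : K)}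

/-- The Stanley-Reisner ideal, generated by the square-free monomials of the nonfaces. -/
noncomputable def stanleyReisner (K : Type) [Field K] (Δ : Cx n) : Ideal (MvPolynomial (Fin n) K) :=
  Ideal.span {p | ∃ S : Finset (Fin n), S ∉ Δ.faces ∧ p = ∏ i ∈ S, MvPolynomial.X i}

/-- The projective scheme of the homogeneous ideal `I` is smooth over `K`: all the rings
`(K[x]/I)[1 / x_i]` are smooth over `K`. (The chart `x_i ≠ 0` of `Proj` is smooth over `K` if and
only if this ring, its Laurent polynomial ring, is.) -/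
def ProjSmooth {K : Type} [Field K] (I : Ideal (MvPolynomial (Fin n) K)) : Prop :=
  ∀ i : Fin n, Algebra.Smooth K (Localization.Away (Ideal.Quotient.mk I (MvPolynomial.X i)))

/-- `Δ` is Gröbner-smoothable over `K`. -/
def GroebnerSmoothable (K : Type) [Field K] (Δ : Cx n) : Prop :=
  ∃ (I : Ideal (MvPolynomial (Fin n) K)) (ord : MonomialOrder.{0, u} (Fin n)),
    (∀ f ∈ I, ∀ d : ℕ, MvPolynomial.homogeneousComponent d f ∈ I) ∧ I.IsPrime ∧
    (∃ i : Fin n, MvPolynomial.X i ∉ I) ∧ ProjSmooth I ∧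
    initialIdeal ord I = stanleyReisner K Δ

open Pool.Agent.MP8049

/-- from the library form of exactness to the vanishing of the quotient -/
theorem subsingleton_of_CE {K : Type} [Field K] (Δ : Cx n) (q : ℕ)
    (h : CE (fun G => G ∈ Δ.faces) K q) : Subsingleton (RedCohomology K Δ q) := by
  classical
  have hext : ∀ (p : ℕ) (c : Cochain K Δ p) (c' : Finset (Fin n) → K),
      (∀ F : {F : Finset (Fin n) // F ∈ Δ.faces ∧ F.card = p}, c' F.1 = c F) →
      ∀ F : {F : Finset (Fin n) // F ∈ Δ.faces ∧ F.card = p + 1},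
        cobd K Δ p c F = cd c' F.1 := by
    intro p c c' hc F
    rw [cd_apply]
    show ∑ v : {v // v ∈ F.1}, _ = _
    rw [← Finset.sum_coe_sort F.1]
    refine Finset.sum_congr rfl fun v _ => ?_
    rw [← hc]
    simp only [sg, zsmul_eq_mul]
    push_cast
    rfl
  refine (Submodule.Quotient.subsingleton_iff).mpr ?_
  rw [eq_top_iff]
  rintro ⟨z, hz⟩ _
  rw [LinearMap.mem_ker] at hz
  let z' : Finset (Fin n) → K := fun G => if hG : G ∈ Δ.faces ∧ G.card = q then z ⟨G, hG⟩ else 0
  have hz'1 : ∀ F : {F : Finset (Fin n) // F ∈ Δ.faces ∧ F.card = q}, z' F.1 = z F := by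
    intro F
    simp only [z']
    rw [dif_pos F.2]
  have hz'2 : ∀ G, z' G ≠ 0 → G ∈ Δ.faces ∧ G.card = q := by
    intro G hG
    by_contra hcon
    exact hG (dif_neg hcon)
  obtain ⟨s, hs1, hs2⟩ := h z' hz'2 (fun G hG hc => by
    rw [← hext q z z' hz'1 ⟨G, hG, hc⟩, hz]
    rfl)
  show z ∈ coboundaries K Δ q
  cases q with
  | zero =>
    show z ∈ (⊥ : Submodule K _)
    rw [Submodule.mem_bot]
    funext F
    rw [← hz'1 F, ← hs2 F.1 F.2.1 F.2.2]
    have hs0 : s = 0 := by
      funext G
      by_contra hG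
      have := (hs1 G hG).2
      omega
    rw [hs0, cd_apply]
    simp
  | succ p =>
    show z ∈ LinearMap.range (cobd K Δ p)
    refine ⟨fun F => s F.1, ?_⟩
    funext F
    rw [hext p (fun F => s F.1) s (fun F => rfl) F, hs2 F.1 F.2.1 F.2.2, hz'1 F]

/-- Every complex that is Gröbner-smoothable over `K` is Cohen-Macaulay and acyclic over `K`. -/
theorem result (K : Type) [Field K] (n : ℕ) (Δ : Cx n) (h : GroebnerSmoothable.{u} K Δ) :
    CohenMacaulay K Δ ∧ Acyclic K Δ := by
  classical
  obtain ⟨I, ord, hhom, hprime, hX, hsm, hin⟩ := h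
  set D : Finset (Finset (Fin n)) := Finset.univ.filter (fun F => F ∈ Δ.faces) with hD
  have hmem : ∀ F, F ∈ D ↔ F ∈ Δ.faces := by
    intro F
    rw [hD, Finset.mem_filter]
    exact ⟨fun h => h.2, fun h => ⟨Finset.mem_univ _, h⟩⟩
  have hprod : ∀ S : Finset (Fin n), (∏ i ∈ S, MvPolynomial.X i : MvPolynomial (Fin n) K) =
      MvPolynomial.monomial (∑ i ∈ S, Finsupp.single i 1) (1 : K) := by
    intro S
    rw [MvPolynomial.monomial_sum_one]
    rfl
  obtain ⟨hlink, hall⟩ := exact_all D (fun F hF G hG => (hmem G).2 (Δ.down F ((hmem F).1 hF) G hG))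
    I ord hhom hprime hX hsm (by
      have h1 : stanleyReisner K Δ = Ideal.span {p : MvPolynomial (Fin n) K |
          ∃ S : Finset (Fin n), S ∉ D ∧
            p = MvPolynomial.monomial (∑ i ∈ S, Finsupp.single i 1) (1 : K)} := by
        unfold stanleyReisner
        congr 1
        ext p
        constructor
        · rintro ⟨S, h1, h2⟩
          exact ⟨S, fun h => h1 ((hmem S).1 h), by rw [h2, hprod]⟩
        · rintro ⟨S, h1, h2⟩
          exact ⟨S, fun h => h1 ((hmem S).2 h), by rw [h2, hprod]⟩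
      rw [← h1]
      exact hin)
  have hac : Acyclic K Δ := by
    intro q
    refine subsingleton_of_CE Δ q ?_
    have h1 : (fun G => G ∈ Δ.faces) = fun G => G ∈ D := by
      funext G
      exact propext (hmem G).symm
    rw [h1]
    exact hall q
  refine ⟨?_, hac⟩
  intro F hF q hq
  refine subsingleton_of_CE _ q ?_
  rcases F.eq_empty_or_nonempty with hFe | hFne
  · subst hFe
    have h1 : (fun G => G ∈ (Δ.link ∅).faces) = fun G => G ∈ D := by
      funext G
      refine propext ?_
      rw [hmem]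
      show G ∩ ∅ = ∅ ∧ G ∪ ∅ ∈ Δ.faces ↔ _
      rw [Finset.inter_empty, Finset.union_empty]
      exact ⟨fun h => h.2, fun h => ⟨rfl, h⟩⟩
    rw [h1]
    exact hall q
  · have h1 : (fun G => G ∈ (Δ.link F).faces) =
        fun G => G ∈ D.filter (fun G => G ∩ F = ∅ ∧ G ∪ F ∈ D) := by
      funext G
      refine propext ?_
      rw [Finset.mem_filter, hmem, hmem]
      constructor
      · rintro ⟨h2, h3⟩
        exact ⟨Δ.down _ h3 _ Finset.subset_union_left, h2, h3⟩
      · rintro ⟨_, h2, h3⟩
        exact ⟨h2, h3⟩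
    rw [h1]
    refine hlink F ((hmem F).2 hF) hFne q ?_
    obtain ⟨G, ⟨hG1, hG2⟩, hG3⟩ := hq
    exact ⟨G, (hmem G).2 (Δ.down _ hG2 _ Finset.subset_union_left), hG1, (hmem _).2 hG2, hG3⟩

end Pool.Agent.Results.MP_8049df_ag.SmoothableCM
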